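import Mathlib

namespace Pool.Agent.TH623.SphereArea

open MeasureTheory Set Metric
open scoped ENNReal NNReal Pointwise

/-- Euclidean three-space. -/
abbrev E := EuclideanSpace ℝ (Fin 3)

/-- The area (two-dimensional Hausdorff measure) of the unit sphere. -/
noncomputable def κ : ℝ≥0∞ := μH[2] (sphere (0 : E) 1)

/-- Spheres scale quadratically. -/
theorem area_sphere (c : E) (ρ : ℝ) (hρ : 0 < ρ) :
    μH[2] (sphere c ρ) = ENNReal.ofReal (ρ ^ 2) * κ := by
  have h1 : sphere c ρ = (fun x => c + x) '' (ρ • sphere (0 : E) 1) := by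
    rw [_root_.smul_sphere' hρ.ne', smul_zero, Real.norm_eq_abs, abs_of_pos hρ, mul_one]
    ext x
    simp only [mem_sphere_iff_norm, mem_image, sub_zero]
    constructor
    · intro h
      exact ⟨x - c, h, by abel⟩
    · rintro ⟨y, hy, rfl⟩
      rw [add_sub_cancel_left]; exact hy
  rw [h1, (isometry_add_left c).hausdorffMeasure_image (Or.inl (by norm_num)),
    Measure.hausdorffMeasure_smul₀ (by norm_num) hρ.ne', κ]
  rw [ENNReal.smul_def, smul_eq_mul]
  congr 1
  have h2 : ‖ρ‖₊ = ρ.toNNReal := by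
    rw [Real.nnnorm_of_nonneg hρ.le]
    ext
    simp [hρ.le]
  rw [h2, ENNReal.ofReal_pow hρ.le, ENNReal.ofReal]
  norm_cast

/-- The inverse stereographic projection. -/
noncomputable def stereo (σ : ℝ) (y : Fin 2 → ℝ) : E :=
  !₂[2 * y 0 / (1 + y 0 ^ 2 + y 1 ^ 2), 2 * y 1 / (1 + y 0 ^ 2 + y 1 ^ 2),
    σ * (1 - y 0 ^ 2 - y 1 ^ 2) / (1 + y 0 ^ 2 + y 1 ^ 2)]

lemma stereo_contDiff (σ : ℝ) : ContDiff ℝ 1 (stereo σ) := by
  have hpos : ∀ y : Fin 2 → ℝ, 1 + y 0 ^ 2 + y 1 ^ 2 ≠ 0 := fun y => by positivity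
  rw [contDiff_euclidean]
  intro i
  fin_cases i
  · exact ContDiff.div (by fun_prop) (by fun_prop) hpos
  · exact ContDiff.div (by fun_prop) (by fun_prop) hpos
  · exact ContDiff.div (by fun_prop) (by fun_prop) hpos

lemma sphere_coords (x : E) (hx : x ∈ sphere (0 : E) 1) : x 0 ^ 2 + x 1 ^ 2 + x 2 ^ 2 = 1 := by
  rw [mem_sphere_zero_iff_norm, EuclideanSpace.norm_eq, Real.sqrt_eq_one] at hx
  simpa [Fin.sum_univ_three] using hx

/-- The closed square of side 2. -/
def box : Set (Fin 2 → ℝ) := Icc (fun _ => -1) (fun _ => 1)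

lemma sphere_subset : sphere (0 : E) 1 ⊆ stereo 1 '' box ∪ stereo (-1) '' box := by
  intro x hx
  have hc := sphere_coords x hx
  have key : ∀ σ : ℝ, σ ^ 2 = 1 → 0 ≤ σ * x 2 → x ∈ stereo σ '' box := by
    intro σ hσ h0
    have hpos : 0 < 1 + σ * x 2 := by linarith
    refine ⟨![x 0 / (1 + σ * x 2), x 1 / (1 + σ * x 2)], ?_, ?_⟩
    · have hb : ∀ t : ℝ, t ^ 2 ≤ 1 → t / (1 + σ * x 2) ∈ Icc (-1 : ℝ) 1 := by
        intro t ht
        have ht' := abs_le.mp ((sq_le_one_iff_abs_le_one t).mp ht)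
        constructor
        · rw [le_div_iff₀ hpos]; linarith [ht'.1]
        · rw [div_le_iff₀ hpos]; linarith [ht'.2]
      rw [box, Set.mem_Icc, Pi.le_def, Pi.le_def]
      constructor
      · intro i
        fin_cases i
        · exact (hb (x 0) (by nlinarith)).1
        · exact (hb (x 1) (by nlinarith)).1
      · intro i
        fin_cases i
        · exact (hb (x 0) (by nlinarith)).2
        · exact (hb (x 1) (by nlinarith)).2
    · have h2 : (x 0 / (1 + σ * x 2)) ^ 2 + (x 1 / (1 + σ * x 2)) ^ 2 =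
          (1 - σ * x 2) / (1 + σ * x 2) := by
        field_simp
        nlinarith
      have h3 : 1 + (x 0 / (1 + σ * x 2)) ^ 2 + (x 1 / (1 + σ * x 2)) ^ 2 =
          2 / (1 + σ * x 2) := by
        rw [add_assoc, h2]
        field_simp
        ring
      have h4 : 1 - (x 0 / (1 + σ * x 2)) ^ 2 - (x 1 / (1 + σ * x 2)) ^ 2 =
          2 * (σ * x 2) / (1 + σ * x 2) := by
        have : 1 - (x 0 / (1 + σ * x 2)) ^ 2 - (x 1 / (1 + σ * x 2)) ^ 2 =
          1 - ((x 0 / (1 + σ * x 2)) ^ 2 + (x 1 / (1 + σ * x 2)) ^ 2) := by ring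
        rw [this, h2]
        field_simp
        ring
      ext i
      fin_cases i
      · show 2 * (x 0 / (1 + σ * x 2)) / (1 + (x 0 / (1 + σ * x 2)) ^ 2 +
          (x 1 / (1 + σ * x 2)) ^ 2) = x 0
        rw [h3]
        field_simp
      · show 2 * (x 1 / (1 + σ * x 2)) / (1 + (x 0 / (1 + σ * x 2)) ^ 2 +
          (x 1 / (1 + σ * x 2)) ^ 2) = x 1
        rw [h3]
        field_simp
      · show σ * (1 - (x 0 / (1 + σ * x 2)) ^ 2 - (x 1 / (1 + σ * x 2)) ^ 2) /
          (1 + (x 0 / (1 + σ * x 2)) ^ 2 + (x 1 / (1 + σ * x 2)) ^ 2) = x 2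
        rw [h3, h4]
        have : σ * (2 * (σ * x 2) / (1 + σ * x 2)) / (2 / (1 + σ * x 2)) = σ ^ 2 * x 2 := by
          field_simp
        rw [this, hσ, one_mul]
  rcases le_total 0 (x 2) with h | h
  · exact Or.inl (key 1 (by norm_num) (by linarith))
  · exact Or.inr (key (-1) (by norm_num) (by linarith))

lemma box_measure : μH[2] box = 4 := by
  have h : (μH[2] : Measure (Fin 2 → ℝ)) = volume := by
    have := hausdorffMeasure_pi_real (ι := Fin 2)
    simpa using this
  rw [h, box, Real.volume_Icc_pi]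
  norm_num [ENNReal.ofReal]

lemma kappa_lt_top : κ < ∞ := by
  have key : ∀ σ : ℝ, μH[2] (stereo σ '' box) < ∞ := by
    intro σ
    have hcomp : IsCompact box := isCompact_Icc
    have hconv : Convex ℝ box := convex_Icc _ _
    obtain ⟨K, hK⟩ := (stereo_contDiff σ).contDiffOn.exists_lipschitzOnWith (s := box)
      one_ne_zero hconv hcomp
    refine (hK.hausdorffMeasure_image_le (by norm_num)).trans_lt ?_
    rw [box_measure]
    exact ENNReal.mul_lt_top (by norm_num [ENNReal.rpow_ofNat]) (by norm_num)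
  refine (measure_mono sphere_subset).trans_lt ?_
  exact (measure_union_le _ _).trans_lt (ENNReal.add_lt_top.mpr ⟨key 1, key (-1)⟩)

lemma kappa_pos : 0 < κ := by
  -- project to the first two coordinates
  let pr : E → (Fin 2 → ℝ) := fun x => ![x 0, x 1]
  have hpr : LipschitzWith 1 pr := by
    refine LipschitzWith.of_dist_le_mul fun x y => ?_
    rw [NNReal.coe_one, one_mul, dist_pi_le_iff dist_nonneg]
    intro i
    fin_cases i
    · show dist (x 0) (y 0) ≤ dist x y
      rw [dist_eq_norm, dist_eq_norm]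
      exact PiLp.norm_apply_le (x - y) 0
    · show dist (x 1) (y 1) ≤ dist x y
      rw [dist_eq_norm, dist_eq_norm]
      exact PiLp.norm_apply_le (x - y) 1
  have h1 := hpr.hausdorffMeasure_image_le (d := 2) (by norm_num) (sphere (0 : E) 1)
  have h2 : (Icc (fun _ => -(1 / 2)) (fun _ => 1 / 2) : Set (Fin 2 → ℝ)) ⊆
      pr '' sphere (0 : E) 1 := by
    intro y hy
    rw [Set.mem_Icc, Pi.le_def, Pi.le_def] at hy
    have h0 := hy.1 0
    have h0' := hy.2 0
    have h1 := hy.1 1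
    have h1' := hy.2 1
    have hnn : 0 ≤ 1 - y 0 ^ 2 - y 1 ^ 2 := by nlinarith
    refine ⟨!₂[y 0, y 1, Real.sqrt (1 - y 0 ^ 2 - y 1 ^ 2)], ?_, ?_⟩
    · rw [mem_sphere_zero_iff_norm, EuclideanSpace.norm_eq, Real.sqrt_eq_one]
      simp [Fin.sum_univ_three, Real.sq_sqrt hnn]
    · funext i
      fin_cases i <;> rfl
  have h3 : (μH[2] : Measure (Fin 2 → ℝ)) = volume := by
    have := hausdorffMeasure_pi_real (ι := Fin 2)
    simpa using this
  have h4 : μH[2] (Icc (fun _ => -(1 / 2)) (fun _ => 1 / 2) : Set (Fin 2 → ℝ)) = 1 := by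
    rw [h3, Real.volume_Icc_pi]
    norm_num [ENNReal.ofReal]
  have h5 : (1 : ℝ≥0∞) ≤ κ := by
    rw [← h4]
    refine (measure_mono h2).trans (h1.trans ?_)
    rw [κ]
    simp
  exact lt_of_lt_of_le one_pos h5

end Pool.Agent.TH623.SphereArea
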