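import Mathlib

namespace Pool.Agent.TH623.Annulus

open Set

/-- The homeomorphism `x ↦ x / (1 + x)` from `(0, ∞)` to `(0, 1)`. -/
noncomputable def iooOfIoi : Ioi (0 : ℝ) ≃ₜ Ioo (0 : ℝ) 1 where
  toFun x := ⟨x.1 / (1 + x.1), by
    have hx : (0 : ℝ) < x.1 := x.2
    exact ⟨by positivity, by rw [div_lt_one (by positivity)]; linarith⟩⟩
  invFun y := ⟨y.1 / (1 - y.1), by
    have h0 := y.2.1
    have h1 := y.2.2
    exact div_pos h0 (by linarith)⟩
  left_inv x := by
    have hx : (0 : ℝ) < x.1 := x.2
    apply Subtype.ext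
    show x.1 / (1 + x.1) / (1 - x.1 / (1 + x.1)) = x.1
    have : (1 : ℝ) + x.1 ≠ 0 := by positivity
    field_simp
    ring
  right_inv y := by
    have h0 := y.2.1
    have h1 := y.2.2
    apply Subtype.ext
    show y.1 / (1 - y.1) / (1 + y.1 / (1 - y.1)) = y.1
    have : (1 : ℝ) - y.1 ≠ 0 := by linarith
    field_simp
    ring
  continuous_toFun := by
    apply Continuous.subtype_mk
    refine Continuous.div continuous_subtype_val (continuous_const.add continuous_subtype_val) ?_
    intro x
    have hx : (0 : ℝ) < x.1 := x.2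
    positivity
  continuous_invFun := by
    apply Continuous.subtype_mk
    refine Continuous.div continuous_subtype_val (continuous_const.sub continuous_subtype_val) ?_
    intro y
    have h1 := y.2.2
    linarith

/-- The punctured plane is an open annulus. -/
theorem punctured_plane : Nonempty (({0}ᶜ : Set (ℝ × ℝ)) ≃ₜ AddCircle (1 : ℝ) × Ioo (0 : ℝ) 1) := by
  let e1 : ({0}ᶜ : Set (ℝ × ℝ)) ≃ₜ ({0}ᶜ : Set ℂ) :=
    Complex.equivRealProdCLM.symm.toHomeomorph.sets (by
      ext z
      simp)
  let e2 : ({0}ᶜ : Set ℂ) ≃ₜ Metric.sphere (0 : ℂ) 1 × Ioi (0 : ℝ) := homeomorphUnitSphereProd ℂ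
  let e3 : Metric.sphere (0 : ℂ) 1 ≃ₜ Circle :=
    { toFun := fun z => ⟨z.1, z.2⟩
      invFun := fun z => ⟨(z : ℂ), by rw [mem_sphere_zero_iff_norm]; exact Circle.norm_coe z⟩
      left_inv := fun z => rfl
      right_inv := fun z => rfl
      continuous_toFun := by
        exact Continuous.subtype_mk continuous_subtype_val _
      continuous_invFun := by
        exact Continuous.subtype_mk (by fun_prop) _ }
  exact ⟨e1.trans (e2.trans ((e3.trans
    (AddCircle.homeomorphCircle (T := (1 : ℝ)) one_ne_zero).symm).prodCongr iooOfIoi))⟩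

end Pool.Agent.TH623.Annulus
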