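import Mathlib

namespace Pool.Agent.TH623.BaseChange

open scoped TensorProduct

universe u

/-- The quotient of a base change by the extension of the augmentation ideal. -/
theorem special_fibre {k R S B : Type u} [Field k] [CommRing R] [CommRing S] [CommRing B]
    [Algebra R B] [Algebra R S] (εR : R →+* k) (εS : S →+* k) (cR : k →+* R) (cS : k →+* S)
    (hε : ∀ r, εS (algebraMap R S r) = εR r) (hc : ∀ a, algebraMap R S (cR a) = cS a)
    (hεc : ∀ a, εR (cR a) = a) :
    ∃ φ : ((S ⊗[R] B) ⧸ (RingHom.ker εS).map (algebraMap S (S ⊗[R] B))) ≃+*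
        (B ⧸ (RingHom.ker εR).map (algebraMap R B)),
      ∀ a : k, φ (Ideal.Quotient.mk _ (algebraMap S (S ⊗[R] B) (cS a))) =
        Ideal.Quotient.mk _ (algebraMap R B (cR a)) := by
  have hεcS : ∀ a, εS (cS a) = a := fun a => by rw [← hc, hε, hεc]
  let I := (RingHom.ker εR).map (algebraMap R B)
  let J := (RingHom.ker εS).map (algebraMap S (S ⊗[R] B))
  let f0 : S →+* B ⧸ I := (Ideal.Quotient.mk I).comp ((algebraMap R B).comp (cR.comp εS))
  let f : S →ₐ[R] B ⧸ I :=
    { f0 with
      commutes' := by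
        intro r
        show Ideal.Quotient.mk I (algebraMap R B (cR (εS (algebraMap R S r)))) =
          Ideal.Quotient.mk I (algebraMap R B r)
        rw [Ideal.Quotient.eq, ← map_sub]
        refine Ideal.mem_map_of_mem _ ?_
        rw [RingHom.mem_ker, map_sub, hε, hεc, sub_self] }
  let F : S ⊗[R] B →ₐ[R] B ⧸ I :=
    Algebra.TensorProduct.lift f (Ideal.Quotient.mkₐ R I) (fun _ _ => Commute.all _ _)
  have hF1 : ∀ x : B, F (1 ⊗ₜ x) = Ideal.Quotient.mk I x := by
    intro x
    show Algebra.TensorProduct.lift f (Ideal.Quotient.mkₐ R I) _ (1 ⊗ₜ x) = _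
    rw [Algebra.TensorProduct.lift_tmul, map_one, one_mul]
    rfl
  have hFs : ∀ s : S, F (algebraMap S (S ⊗[R] B) s) =
      Ideal.Quotient.mk I (algebraMap R B (cR (εS s))) := by
    intro s
    rw [Algebra.TensorProduct.algebraMap_apply]
    show Algebra.TensorProduct.lift f (Ideal.Quotient.mkₐ R I) _ (algebraMap S S s ⊗ₜ 1) = _
    rw [Algebra.TensorProduct.lift_tmul, map_one, mul_one]
    rfl
  have hsurj : Function.Surjective F := by
    intro y
    obtain ⟨x, rfl⟩ := Ideal.Quotient.mk_surjective y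
    exact ⟨1 ⊗ₜ x, hF1 x⟩
  -- every element is congruent to some `1 ⊗ x`
  have hcong : ∀ z : S ⊗[R] B, ∃ x : B, z - 1 ⊗ₜ x ∈ J := by
    intro z
    induction z with
    | zero => exact ⟨0, by rw [TensorProduct.tmul_zero, sub_zero]; exact J.zero_mem⟩
    | tmul s b =>
      refine ⟨cR (εS s) • b, ?_⟩
      have h1 : s ⊗ₜ[R] b - 1 ⊗ₜ[R] (cR (εS s) • b) =
          algebraMap S (S ⊗[R] B) (s - cS (εS s)) * (1 ⊗ₜ b) := by
        rw [Algebra.TensorProduct.algebraMap_apply, Algebra.TensorProduct.tmul_mul_tmul,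
          TensorProduct.tmul_smul, TensorProduct.smul_tmul', one_mul, mul_one,
          Algebra.algebraMap_self, RingHom.id_apply, TensorProduct.sub_tmul,
          Algebra.smul_def, mul_one, hc]
      rw [h1]
      refine Ideal.mul_mem_right _ _ (Ideal.mem_map_of_mem _ ?_)
      rw [RingHom.mem_ker, map_sub, hεcS, sub_self]
    | add z w hz hw =>
      obtain ⟨x, hx⟩ := hz
      obtain ⟨y, hy⟩ := hw
      refine ⟨x + y, ?_⟩
      have h1 : z + w - 1 ⊗ₜ[R] (x + y) = (z - 1 ⊗ₜ[R] x) + (w - 1 ⊗ₜ[R] y) := by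
        rw [TensorProduct.tmul_add]; ring
      rw [h1]
      exact J.add_mem hx hy
  have hone : ∀ x ∈ I, (1 : S) ⊗ₜ[R] x ∈ J := by
    intro x hx
    have h1 : I ≤ J.comap (Algebra.TensorProduct.includeRight : B →ₐ[R] S ⊗[R] B).toRingHom := by
      rw [Ideal.map_le_iff_le_comap]
      intro r hr
      rw [Ideal.mem_comap, Ideal.mem_comap]
      have h2 : (Algebra.TensorProduct.includeRight : B →ₐ[R] S ⊗[R] B).toRingHom
          (algebraMap R B r) = algebraMap S (S ⊗[R] B) (algebraMap R S r) := by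
        show (1 : S) ⊗ₜ[R] (algebraMap R B r) = _
        rw [Algebra.TensorProduct.algebraMap_apply, Algebra.algebraMap_self, RingHom.id_apply,
          Algebra.algebraMap_eq_smul_one, TensorProduct.tmul_smul, TensorProduct.smul_tmul',
          Algebra.smul_def, mul_one]
      rw [h2]
      refine Ideal.mem_map_of_mem _ ?_
      rw [RingHom.mem_ker, hε]
      exact hr
    exact h1 hx
  have hker : RingHom.ker (F : S ⊗[R] B →+* B ⧸ I) = J := by
    apply le_antisymm
    · intro z hz
      obtain ⟨x, hx⟩ := hcong z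
      have h0 : F (z - 1 ⊗ₜ x) = 0 := by
        have h1 : J ≤ RingHom.ker (F : S ⊗[R] B →+* B ⧸ I) := by
          rw [Ideal.map_le_iff_le_comap]
          intro s hs
          rw [Ideal.mem_comap, RingHom.mem_ker]
          show F (algebraMap S (S ⊗[R] B) s) = 0
          rw [hFs, (RingHom.mem_ker.mp hs), map_zero, map_zero, map_zero]
        exact h1 hx
      have hz0 : F z = 0 := hz
      rw [map_sub, hz0, hF1, zero_sub, neg_eq_zero, Ideal.Quotient.eq_zero_iff_mem] at h0
      have := J.add_mem hx (hone x h0)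
      rwa [sub_add_cancel] at this
    · rw [Ideal.map_le_iff_le_comap]
      intro s hs
      rw [Ideal.mem_comap, RingHom.mem_ker]
      show F (algebraMap S (S ⊗[R] B) s) = 0
      rw [hFs, (RingHom.mem_ker.mp hs), map_zero, map_zero, map_zero]
  let φ : ((S ⊗[R] B) ⧸ J) ≃+* (B ⧸ I) :=
    (Ideal.quotEquivOfEq hker.symm).trans
      (RingHom.quotientKerEquivOfSurjective (f := (F : S ⊗[R] B →+* B ⧸ I)) hsurj)
  refine ⟨φ, fun a => ?_⟩
  have h1 : φ (Ideal.Quotient.mk J (algebraMap S (S ⊗[R] B) (cS a))) =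
      F (algebraMap S (S ⊗[R] B) (cS a)) := rfl
  rw [h1, hFs, hεcS]

/-- The generic fibre of the base change is split. -/
theorem generic_fibre {R S K L K' B : Type u} [CommRing R] [CommRing S] [Field K] [Field L]
    [Field K'] [CommRing B] [Algebra R B] [Algebra R S] [Algebra R K] [Algebra K L]
    [Algebra S K'] (θ : L →+* K')
    (hθ : ∀ r, θ (algebraMap K L (algebraMap R K r)) = algebraMap S K' (algebraMap R S r))
    [Algebra.IsFiniteSplit L (L ⊗[K] (K ⊗[R] B))] :
    Algebra.IsFiniteSplit K' (K' ⊗[S] (S ⊗[R] B)) := by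
  let _ : Algebra L K' := θ.toAlgebra
  let _ : Algebra K K' := (θ.comp (algebraMap K L)).toAlgebra
  let _ : Algebra R K' := ((algebraMap S K').comp (algebraMap R S)).toAlgebra
  have : IsScalarTower K L K' := IsScalarTower.of_algebraMap_eq' rfl
  have : IsScalarTower R S K' := IsScalarTower.of_algebraMap_eq' rfl
  have : IsScalarTower R K K' := IsScalarTower.of_algebraMap_eq fun r => (hθ r).symm
  have h1 : Algebra.IsFiniteSplit K' (K' ⊗[L] (L ⊗[K] (K ⊗[R] B))) := inferInstance
  have h2 : Algebra.IsFiniteSplit K' (K' ⊗[K] (K ⊗[R] B)) :=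
    Algebra.IsFiniteSplit.of_algEquiv
      (Algebra.TensorProduct.cancelBaseChange K L K' K' (K ⊗[R] B))
  have h3 : Algebra.IsFiniteSplit K' (K' ⊗[R] B) :=
    Algebra.IsFiniteSplit.of_algEquiv
      (Algebra.TensorProduct.cancelBaseChange R K K' K' B)
  exact Algebra.IsFiniteSplit.of_algEquiv
      (Algebra.TensorProduct.cancelBaseChange R S K' K' B).symm

/-- Base change of a finite flat algebra along `ψ : R → S`, with explicit `ψ`. -/
theorem exists_base_change {k R S K L K' B : Type u} [Field k] [CommRing R] [CommRing S] [Field K]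
    [Field L] [Field K'] [CommRing B] [Algebra R B] [Algebra R K] [Algebra K L]
    [Algebra S K'] [Module.Finite R B] [Module.Flat R B] (ψ : R →+* S) (θ : L →+* K')
    (hθ : ∀ r, θ (algebraMap K L (algebraMap R K r)) = algebraMap S K' (ψ r))
    [Algebra.IsFiniteSplit L (L ⊗[K] (K ⊗[R] B))]
    (εR : R →+* k) (εS : S →+* k) (cR : k →+* R) (cS : k →+* S)
    (hε : ∀ r, εS (ψ r) = εR r) (hc : ∀ a, ψ (cR a) = cS a) (hεc : ∀ a, εR (cR a) = a) :
    ∃ (B' : Type u) (_ : CommRing B') (_ : Algebra S B'), Module.Finite S B' ∧ Module.Flat S B' ∧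
      Algebra.IsFiniteSplit K' (K' ⊗[S] B') ∧
      ∃ φ : (B' ⧸ (RingHom.ker εS).map (algebraMap S B')) ≃+*
          (B ⧸ (RingHom.ker εR).map (algebraMap R B)),
        ∀ a : k, φ (Ideal.Quotient.mk _ (algebraMap S B' (cS a))) =
          Ideal.Quotient.mk _ (algebraMap R B (cR a)) := by
  let _ : Algebra R S := ψ.toAlgebra
  exact ⟨S ⊗[R] B, inferInstance, inferInstance, inferInstance, inferInstance,
    generic_fibre θ hθ, special_fibre εR εS cR cS hε hc hεc⟩

end Pool.Agent.TH623.BaseChange
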