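import Mathlib

namespace Pool.Agent.TH623.Taylor

open PowerSeries

variable {k : Type*} [Field k] {V : Type*} [CommRing V]

/-- `v` has Taylor expansion `f` along `π`, with coefficients taken through `c`. -/
def Rel (c : k →+* V) (π : V) (v : V) (f : k⟦X⟧) : Prop :=
  ∀ n, π ^ n ∣ v - (trunc n f).eval₂ c π

lemma dvd_eval₂_sub_trunc (c : k →+* V) (π : V) (n : ℕ) (p : Polynomial k) :
    π ^ n ∣ p.eval₂ c π - (trunc n (p : k⟦X⟧)).eval₂ c π := by
  have h : (Polynomial.X : Polynomial k) ^ n ∣ p - trunc n (p : k⟦X⟧) := by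
    rw [Polynomial.X_pow_dvd_iff]
    intro d hd
    rw [Polynomial.coeff_sub, coeff_trunc, if_pos hd, Polynomial.coeff_coe, sub_self]
  obtain ⟨q, hq⟩ := h
  refine ⟨q.eval₂ c π, ?_⟩
  rw [← Polynomial.eval₂_sub, hq, Polynomial.eval₂_mul, Polynomial.eval₂_pow, Polynomial.eval₂_X]

lemma Rel.add {c : k →+* V} {π v w : V} {f g : k⟦X⟧} (hf : Rel c π v f) (hg : Rel c π w g) :
    Rel c π (v + w) (f + g) := by
  intro n
  have h := dvd_add (hf n) (hg n)
  have e : v + w - (trunc n (f + g)).eval₂ c π =
      v - (trunc n f).eval₂ c π + (w - (trunc n g).eval₂ c π) := by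
    rw [map_add, Polynomial.eval₂_add]
    ring
  rw [e]
  exact h

lemma Rel.mul {c : k →+* V} {π v w : V} {f g : k⟦X⟧} (hf : Rel c π v f) (hg : Rel c π w g) :
    Rel c π (v * w) (f * g) := by
  intro n
  have h1 := hf n
  have h2 := hg n
  have h3 := dvd_eval₂_sub_trunc c π n (trunc n f * trunc n g)
  have h4 : trunc n (((trunc n f * trunc n g : Polynomial k)) : k⟦X⟧) = trunc n (f * g) := by
    rw [Polynomial.coe_mul]
    exact trunc_trunc_mul_trunc f g
  rw [h4, Polynomial.eval₂_mul] at h3
  have e : v * w - (trunc n (f * g)).eval₂ c π =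
      v * (w - (trunc n g).eval₂ c π) + (v - (trunc n f).eval₂ c π) * (trunc n g).eval₂ c π +
      ((trunc n f).eval₂ c π * (trunc n g).eval₂ c π - (trunc n (f * g)).eval₂ c π) := by
    ring
  rw [e]
  exact dvd_add (dvd_add (h2.mul_left _) (h1.mul_right _)) h3

lemma Rel.const (c : k →+* V) (π : V) (a : k) : Rel c π (c a) (C a) := by
  intro n
  rcases n with _ | n
  · simp
  · rw [trunc_C]
    simp

lemma Rel.pi (c : k →+* V) (π : V) : Rel c π π X := by
  intro n
  rcases n with _ | _ | n
  · simp
  · rw [trunc_one_X]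
    simp
  · rw [trunc_X]
    simp

/-- Existence of expansions. -/
lemma exists_rel (c : k →+* V) (π : V) (hsurj : ∀ v : V, ∃ a : k, π ∣ v - c a) (v : V) :
    ∃ f, Rel c π v f := by
  choose a ha using hsurj
  choose q hq using ha
  let s : ℕ → V := fun n => Nat.rec v (fun _ w => q w) n
  have hs : ∀ n, s n - c (a (s n)) = π * s (n + 1) := fun n => hq (s n)
  refine ⟨PowerSeries.mk fun n => a (s n), ?_⟩
  have key : ∀ n, v - (trunc n (PowerSeries.mk fun n => a (s n))).eval₂ c π = π ^ n * s n := by
    intro n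
    induction n with
    | zero => simp [s]
    | succ n ih =>
      rw [trunc_succ, Polynomial.eval₂_add, Polynomial.eval₂_monomial, coeff_mk]
      have := hs n
      linear_combination ih + π ^ n * this
  intro n
  exact ⟨s n, key n⟩

/-- Uniqueness of expansions. -/
lemma rel_unique [IsDomain V] (c : k →+* V) (π : V) (h0 : π ≠ 0) (hu : ¬ IsUnit π) (v : V)
    {f g : k⟦X⟧} (hf : Rel c π v f) (hg : Rel c π v g) : f = g := by
  have key : ∀ n, trunc n f = trunc n g := by
    intro n
    induction n with
    | zero => simp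
    | succ n ih =>
      have h1 := dvd_sub (hg (n + 1)) (hf (n + 1))
      rw [trunc_succ, trunc_succ, ih, Polynomial.eval₂_add, Polynomial.eval₂_add,
        Polynomial.eval₂_monomial, Polynomial.eval₂_monomial] at h1
      have h2 : π ^ n * π ∣ π ^ n * c (coeff n f - coeff n g) := by
        rw [← pow_succ]
        refine h1.trans (dvd_of_eq ?_)
        rw [map_sub]
        ring
      have h3 : π ∣ c (coeff n f - coeff n g) :=
        (mul_dvd_mul_iff_left (pow_ne_zero n h0)).mp h2
      have h4 : coeff n f = coeff n g := by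
        by_contra hne
        have h5 : IsUnit (c (coeff n f - coeff n g)) :=
          (isUnit_iff_ne_zero.mpr (sub_ne_zero.mpr hne)).map c
        exact hu (isUnit_of_dvd_unit h3 h5)
      rw [trunc_succ, trunc_succ, ih, h4]
  ext n
  have h := congrArg (fun p => Polynomial.coeff p n) (key (n + 1))
  simpa [coeff_trunc] using h

/-- The Taylor expansion homomorphism of a discrete valuation ring with a coefficient field. -/
theorem exists_taylor [IsDomain V] [IsDiscreteValuationRing V] (c : k →+* V)
    (hsurj : ∀ v : V, ∃ a : k, v - c a ∈ IsLocalRing.maximalIdeal V) :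
    ∃ τ : V →+* k⟦X⟧, Function.Injective τ ∧ (∀ a, τ (c a) = C a) ∧
      ∀ v ∈ IsLocalRing.maximalIdeal V, constantCoeff (τ v) = 0 := by
  obtain ⟨π, hπ⟩ := IsDiscreteValuationRing.exists_irreducible V
  have hm : IsLocalRing.maximalIdeal V = Ideal.span {π} := hπ.maximalIdeal_eq
  have hsurj' : ∀ v : V, ∃ a : k, π ∣ v - c a := fun v => by
    obtain ⟨a, ha⟩ := hsurj v
    rw [hm, Ideal.mem_span_singleton] at ha
    exact ⟨a, ha⟩
  have h0 : π ≠ 0 := hπ.ne_zero
  have hu : ¬ IsUnit π := hπ.not_isUnit
  choose F hF using exists_rel c π hsurj'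
  have hconst : ∀ a, F (c a) = C a := fun a =>
    rel_unique c π h0 hu _ (hF _) (Rel.const c π a)
  let τ : V →+* k⟦X⟧ :=
    { toFun := F
      map_one' := by
        have := hconst 1
        rw [map_one, map_one] at this
        exact this
      map_zero' := by
        have := hconst 0
        rw [map_zero, map_zero] at this
        exact this
      map_add' := fun v w => rel_unique c π h0 hu _ (hF _) ((hF v).add (hF w))
      map_mul' := fun v w => rel_unique c π h0 hu _ (hF _) ((hF v).mul (hF w)) }
  refine ⟨τ, ?_, hconst, ?_⟩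
  · rw [injective_iff_map_eq_zero]
    intro v hv
    have hv' : F v = 0 := hv
    have h1 : ∀ n, π ^ n ∣ v := fun n => by
      have := hF v n
      rw [hv'] at this
      simpa using this
    have h2 : v ∈ (⨅ n : ℕ, IsLocalRing.maximalIdeal V ^ n : Ideal V) := by
      rw [Ideal.mem_iInf]
      intro n
      rw [hm, Ideal.span_singleton_pow, Ideal.mem_span_singleton]
      exact h1 n
    rw [Ideal.iInf_pow_eq_bot_of_isLocalRing _ (IsLocalRing.maximalIdeal.isMaximal V).ne_top] at h2
    simpa using h2
  · intro v hv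
    rw [hm, Ideal.mem_span_singleton] at hv
    obtain ⟨w, rfl⟩ := hv
    have h1 : τ (π * w) = X * τ w := by
      rw [map_mul]
      congr 1
      exact rel_unique c π h0 hu _ (hF _) (Rel.pi c π)
    rw [h1]
    simp

end Pool.Agent.TH623.Taylor
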