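import Mathlib
import Pool.Agent.TH623.Taylor

namespace Pool.Agent.TH623.Branch

open PowerSeries LaurentSeries

/-- Taylor expansion at a prime `P` whose localization is a discrete valuation ring with
coefficient field `k`. -/
theorem exists_taylor_at {k : Type*} [Field k] {S : Type*} [CommRing S] [IsDomain S]
    (P : Ideal S) [P.IsPrime] (V : Type*) [CommRing V] [IsDomain V] [IsDiscreteValuationRing V]
    [Algebra S V] [IsLocalization.AtPrime V P] (c : k →+* S) (hres : ∀ y, ∃ a, y - c a ∈ P) :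
    ∃ τ : S →+* k⟦X⟧, Function.Injective τ ∧ (∀ a, τ (c a) = C a) ∧
      ∀ y ∈ P, constantCoeff (τ y) = 0 := by
  let cV : k →+* V := (algebraMap S V).comp c
  have hmem : ∀ y : S, y ∈ P → algebraMap S V y ∈ IsLocalRing.maximalIdeal V := by
    intro y hy
    rw [IsLocalization.AtPrime.to_map_mem_maximal_iff V P]
    exact hy
  have hsurj : ∀ v : V, ∃ a : k, v - cV a ∈ IsLocalRing.maximalIdeal V := by
    intro v
    obtain ⟨y, z, rfl⟩ := IsLocalization.exists_mk'_eq P.primeCompl v
    obtain ⟨a, ha⟩ := hres y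
    obtain ⟨b, hb⟩ := hres z
    have hb0 : b ≠ 0 := by
      rintro rfl
      rw [map_zero, sub_zero] at hb
      exact z.2 hb
    refine ⟨a / b, ?_⟩
    have hz : IsUnit (algebraMap S V z) := IsLocalization.map_units V z
    have h1 : algebraMap S V z * (IsLocalization.mk' V y z - cV (a / b)) ∈
        IsLocalRing.maximalIdeal V := by
      have h2 : algebraMap S V z * (IsLocalization.mk' V y z - cV (a / b)) =
          algebraMap S V (y - c a) - algebraMap S V (z - c b) * cV (a / b) := by
        have h3 : algebraMap S V z * IsLocalization.mk' V y z = algebraMap S V y :=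
          IsLocalization.mk'_spec' V y z
        have h4 : algebraMap S V (c a) = algebraMap S V (c b) * cV (a / b) := by
          have : a = b * (a / b) := by field_simp
          conv_lhs => rw [this, map_mul, map_mul]
          rfl
        rw [map_sub, map_sub, mul_sub, h3, h4]
        ring
      rw [h2]
      exact Ideal.sub_mem _ (hmem _ ha) (Ideal.mul_mem_right _ _ (hmem _ hb))
    exact (Ideal.unit_mul_mem_iff_mem _ hz).mp h1
  obtain ⟨τ, hτinj, hτc, hτm⟩ := Pool.Agent.TH623.Taylor.exists_taylor cV hsurj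
  have hSV : Function.Injective (algebraMap S V) :=
    IsLocalization.injective V P.primeCompl_le_nonZeroDivisors
  refine ⟨τ.comp (algebraMap S V), ?_, hτc, fun y hy => hτm _ (hmem _ hy)⟩
  exact hτinj.comp hSV

/-- A finite separable extension `L` of `k((t))` maps to `k((s))` over a local homomorphism
`k[[t]] → k[[s]]` of `k`-algebras, when `k` is algebraically closed. -/
theorem exists_branch (k : Type*) [Field k] [IsAlgClosed k] (L : Type*) [Field L]
    [Algebra k⸨X⸩ L] [FiniteDimensional k⸨X⸩ L] [Algebra.IsSeparable k⸨X⸩ L] :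
    ∃ (ψ : k⟦X⟧ →+* k⟦X⟧) (θ : L →+* k⸨X⸩),
      (∀ a, ψ (C a) = C a) ∧ constantCoeff (ψ X) = 0 ∧
      ∀ r : k⟦X⟧, θ (algebraMap k⸨X⸩ L (algebraMap k⟦X⟧ k⸨X⸩ r)) =
        algebraMap k⟦X⟧ k⸨X⸩ (ψ r) := by
  let _ : Algebra k⟦X⟧ L := ((algebraMap k⸨X⸩ L).comp (algebraMap k⟦X⟧ k⸨X⸩)).toAlgebra
  have : IsScalarTower k⟦X⟧ k⸨X⸩ L := IsScalarTower.of_algebraMap_eq' rfl
  let S := integralClosure k⟦X⟧ L
  have : IsDedekindDomain S := integralClosure.isDedekindDomain k⟦X⟧ k⸨X⸩ L
  have : IsFractionRing S L :=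
    IsIntegralClosure.isFractionRing_of_finite_extension k⟦X⟧ k⸨X⸩ L S
  have hinj : Function.Injective (algebraMap k⟦X⟧ S) := by
    have h1 : Function.Injective (algebraMap k⟦X⟧ L) :=
      (algebraMap k⸨X⸩ L).injective.comp (IsFractionRing.injective k⟦X⟧ k⸨X⸩)
    have h2 : (algebraMap k⟦X⟧ L) = (algebraMap S L).comp (algebraMap k⟦X⟧ S) := rfl
    rw [h2, RingHom.coe_comp] at h1
    exact Function.Injective.of_comp h1
  obtain ⟨P, hPmax, hP⟩ := Ideal.exists_ideal_over_maximal_of_isIntegral (S := S)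
    (IsLocalRing.maximalIdeal k⟦X⟧) (by
      rw [(RingHom.injective_iff_ker_eq_bot _).mp hinj]
      exact bot_le)
  have hmem : ∀ r : k⟦X⟧, constantCoeff r = 0 → algebraMap k⟦X⟧ S r ∈ P := by
    intro r hr
    rw [← Ideal.mem_comap, hP, IsLocalRing.mem_maximalIdeal, mem_nonunits_iff,
      PowerSeries.isUnit_iff_constantCoeff, hr]
    exact not_isUnit_zero
  have hXP : algebraMap k⟦X⟧ S X ∈ P := hmem X constantCoeff_X
  have hP0 : P ≠ ⊥ := by
    rintro rfl
    rw [Ideal.mem_bot] at hXP
    exact X_ne_zero (hinj (by rw [hXP, map_zero]))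
  -- the coefficient field
  let c : k →+* S := (algebraMap k⟦X⟧ S).comp C
  have hres : ∀ y : S, ∃ a : k, y - c a ∈ P := by
    have hint : ((Ideal.Quotient.mk P).comp (algebraMap k⟦X⟧ S)).IsIntegral := by
      apply RingHom.IsIntegral.trans
      · exact algebraMap_isIntegral_iff.mpr inferInstance
      · exact RingHom.isIntegral_of_surjective _ Ideal.Quotient.mk_surjective
    have hfac : (((Ideal.Quotient.mk P).comp c).comp constantCoeff) =
        (Ideal.Quotient.mk P).comp (algebraMap k⟦X⟧ S) := by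
      refine RingHom.ext fun r => ?_
      simp only [RingHom.comp_apply, c]
      rw [Ideal.Quotient.eq, ← map_sub]
      refine hmem _ ?_
      rw [map_sub, constantCoeff_C, sub_self]
    have hint2 : ((Ideal.Quotient.mk P).comp c).IsIntegral := by
      apply RingHom.IsIntegral.tower_top (constantCoeff (R := k))
      rw [hfac]
      exact hint
    have hbij := IsAlgClosed.ringHom_bijective_of_isIntegral _ hint2
    intro y
    obtain ⟨a, ha⟩ := hbij.2 (Ideal.Quotient.mk P y)
    refine ⟨a, ?_⟩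
    rw [← Ideal.Quotient.eq]
    exact ha.symm
  have hDVR : IsDiscreteValuationRing (Localization.AtPrime P) :=
    IsLocalization.AtPrime.isDiscreteValuationRing_of_dedekind_domain S hP0
      (Localization.AtPrime P)
  obtain ⟨τ, hτinj, hτc, hτm⟩ := exists_taylor_at P (Localization.AtPrime P) c hres
  let g : S →+* k⸨X⸩ := (algebraMap k⟦X⟧ k⸨X⸩).comp τ
  have hg : Function.Injective g :=
    (IsFractionRing.injective k⟦X⟧ k⸨X⸩).comp hτinj
  refine ⟨τ.comp (algebraMap k⟦X⟧ S), IsFractionRing.lift hg, ?_, ?_, ?_⟩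
  · intro a
    exact hτc a
  · exact hτm _ hXP
  · intro r
    have h1 : algebraMap k⸨X⸩ L (algebraMap k⟦X⟧ k⸨X⸩ r) = algebraMap S L (algebraMap k⟦X⟧ S r) :=
      rfl
    rw [h1, IsFractionRing.lift_algebraMap]
    rfl

end Pool.Agent.TH623.Branch
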