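import Mathlib

namespace Pool.Agent.TH623.GenericBasis

open scoped TensorProduct

section Generic

variable {κ : Type*} [Field κ] {A : Type*} [CommRing A] [Algebra κ A]
variable {ι : Type*} [Fintype ι] [DecidableEq ι]

omit [DecidableEq ι] in
/-- A linearly independent family can be placed in prescribed positions of a basis. -/
lemma exists_basis_extending {ι' : Type*} (p : ι' → ι) (hp : Function.Injective p)
    (v : ι' → A) (hv : LinearIndependent κ v) (b : Module.Basis ι κ A) :
    ∃ e : Module.Basis ι κ A, ∀ x, e (p x) = v x := by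
  classical
  let B := Module.Basis.extend hv.linearIndepOn_id
  have hmem : ∀ x, v x ∈ hv.linearIndepOn_id.extend (Set.subset_univ (Set.range v)) := fun x =>
    hv.linearIndepOn_id.subset_extend _ ⟨x, rfl⟩
  let σ := B.indexEquiv b
  let q : ι' → ι := fun x => σ ⟨v x, hmem x⟩
  have hq : Function.Injective q := fun x y h => by
    have h1 := σ.injective h
    exact hv.injective (Subtype.ext_iff.mp h1)
  let E : {x // x ∈ Set.range q} ≃ {x // x ∈ Set.range p} :=
    (Equiv.ofInjective q hq).symm.trans (Equiv.ofInjective p hp)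
  let π : Equiv.Perm ι := E.extendSubtype
  have hπ : ∀ x, π (q x) = p x := by
    intro x
    have h1 := E.extendSubtype_apply_of_mem (q x) ⟨x, rfl⟩
    show E.extendSubtype (q x) = p x
    rw [h1]
    have h2 : (Equiv.ofInjective q hq).symm ⟨q x, ⟨x, rfl⟩⟩ = x :=
      Equiv.ofInjective_symm_apply hq x
    simp only [E, Equiv.trans_apply]
    rw [h2]
    rfl
  refine ⟨B.reindex (σ.trans π), fun x => ?_⟩
  rw [Module.Basis.reindex_apply]
  have h3 : (σ.trans π).symm (p x) = ⟨v x, hmem x⟩ := by
    rw [Equiv.symm_apply_eq]
    show p x = π (σ ⟨v x, hmem x⟩)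
    exact (hπ x).symm
  rw [h3]
  exact Module.Basis.extend_apply_self hv.linearIndepOn_id _

/-- Coordinates of `e i * e j` for the family with coordinate matrix the generic matrix. -/
noncomputable def prodPoly (b : Module.Basis ι κ A) (i j m : ι) : MvPolynomial (ι × ι) κ :=
  ∑ a, ∑ c, MvPolynomial.C (b.repr (b a * b c) m) * MvPolynomial.X (i, a) * MvPolynomial.X (j, c)

/-- The determinant of the generic matrix whose row `l` is replaced by the coordinates of the
product of the vectors `i` and `j`. -/
noncomputable def constPoly (b : Module.Basis ι κ A) (i j l : ι) : MvPolynomial (ι × ι) κ :=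
  (Matrix.updateRow (Matrix.of fun a c => (MvPolynomial.X (a, c) : MvPolynomial (ι × ι) κ)) l
    (fun m => prodPoly b i j m)).det

/-- The determinant of the generic matrix. -/
noncomputable def detPoly : MvPolynomial (ι × ι) κ :=
  (Matrix.of fun a c => (MvPolynomial.X (a, c) : MvPolynomial (ι × ι) κ)).det

omit [DecidableEq ι] in
lemma eval_prodPoly (b : Module.Basis ι κ A) (i j m : ι) (M : ι × ι → κ) :
    MvPolynomial.eval M (prodPoly b i j m) =
      b.repr ((∑ a, M (i, a) • b a) * (∑ c, M (j, c) • b c)) m := by
  rw [Finset.sum_mul_sum]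
  simp only [prodPoly, map_sum, map_mul, MvPolynomial.eval_C, MvPolynomial.eval_X,
    Finsupp.coe_finsetSum, Finset.sum_apply, smul_mul_smul_comm, map_smul, Finsupp.coe_smul,
    Pi.smul_apply, smul_eq_mul]
  refine Finset.sum_congr rfl fun a _ => Finset.sum_congr rfl fun c _ => ?_
  ring

lemma eval_detPoly (M : ι × ι → κ) :
    MvPolynomial.eval M (detPoly : MvPolynomial (ι × ι) κ) = (Matrix.of fun a c => M (a, c)).det := by
  rw [detPoly, RingHom.map_det]
  congr 1
  ext a c
  simp

lemma eval_constPoly (b : Module.Basis ι κ A) (i j l : ι) (M : ι × ι → κ) :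
    MvPolynomial.eval M (constPoly b i j l) =
      (Matrix.updateRow (Matrix.of fun a c => M (a, c)) l
        (fun m => b.repr ((∑ a, M (i, a) • b a) * (∑ c, M (j, c) • b c)) m)).det := by
  rw [constPoly, RingHom.map_det]
  congr 1
  ext a c
  simp only [RingHom.mapMatrix_apply, Matrix.map_apply, Matrix.updateRow_apply, Matrix.of_apply]
  split_ifs with h
  · exact eval_prodPoly b i j c M
  · simp

/-- The determinant is the structure constant times the determinant of the basis change. -/
lemma eval_constPoly_basis (b e : Module.Basis ι κ A) (i j l : ι) :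
    MvPolynomial.eval (fun x : ι × ι => b.repr (e x.1) x.2) (constPoly b i j l) =
      e.repr (e i * e j) l * (Matrix.of fun a c => b.repr (e a) c).det := by
  rw [eval_constPoly]
  have h1 : ∀ a, ∑ c, b.repr (e a) c • b c = e a := fun a => b.sum_repr (e a)
  simp only [h1]
  rw [← smul_eq_mul (a := e.repr (e i * e j) l),
    ← Matrix.det_updateRow_sum (Matrix.of fun a c => b.repr (e a) c) l
    (fun k => e.repr (e i * e j) k)]
  congr 2
  ext m
  have h4 : b.repr (e i * e j) m = b.repr (∑ c, e.repr (e i * e j) c • e c) m := by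
    rw [e.sum_repr]
  rw [h4, map_sum]
  simp only [map_smul, Finsupp.coe_finsetSum, Finset.sum_apply, Finsupp.coe_smul, Pi.smul_apply,
    Matrix.of_apply]

lemma det_basis_ne_zero (b e : Module.Basis ι κ A) :
    (Matrix.of fun a c => b.repr (e a) c).det ≠ 0 := by
  have h1 : (Matrix.of fun a c => b.repr (e a) c) = (b.toMatrix e).transpose := by
    ext a c
    simp [Module.Basis.toMatrix_apply]
  rw [h1, Matrix.det_transpose]
  have h2 : b.toMatrix e * e.toMatrix b = 1 := Module.Basis.toMatrix_mul_toMatrix_flip b e
  intro h0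
  have h3 := congrArg Matrix.det h2
  rw [Matrix.det_mul, h0, zero_mul, Matrix.det_one] at h3
  exact zero_ne_one h3

/-- The polynomial of the structure constant `(i,j,l)` is nonzero once some basis has this
structure constant nonzero. -/
lemma constPoly_ne_zero (b e : Module.Basis ι κ A) (i j l : ι) (h : e.repr (e i * e j) l ≠ 0) :
    constPoly b i j l ≠ 0 := by
  intro h0
  have h1 := eval_constPoly_basis b e i j l
  rw [h0, map_zero] at h1
  exact (mul_ne_zero h (det_basis_ne_zero b e)) h1.symm

lemma detPoly_ne_zero : (detPoly : MvPolynomial (ι × ι) κ) ≠ 0 := by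
  intro h0
  have h1 := eval_detPoly (fun x : ι × ι => (1 : Matrix ι ι κ) x.1 x.2)
  rw [h0, map_zero] at h1
  have h2 : (Matrix.of fun a c => (1 : Matrix ι ι κ) a c) = 1 := by
    ext a c; simp
  simp only [h2, Matrix.det_one] at h1
  exact zero_ne_one h1

/-- If each structure constant is nonzero in some basis, all are nonzero in a common basis. -/
lemma exists_common_basis [Infinite κ] (b : Module.Basis ι κ A)
    (h : ∀ i j l : ι, ∃ e : Module.Basis ι κ A, e.repr (e i * e j) l ≠ 0) :
    ∃ e : Module.Basis ι κ A, ∀ i j l, e.repr (e i * e j) l ≠ 0 := by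
  classical
  let P : MvPolynomial (ι × ι) κ :=
    detPoly * ∏ x : ι × ι × ι, constPoly b x.1 x.2.1 x.2.2
  have hP : P ≠ 0 := by
    refine mul_ne_zero detPoly_ne_zero (Finset.prod_ne_zero_iff.mpr fun x _ => ?_)
    obtain ⟨e, he⟩ := h x.1 x.2.1 x.2.2
    exact constPoly_ne_zero b e _ _ _ he
  obtain ⟨M, hM⟩ : ∃ M : ι × ι → κ, MvPolynomial.eval M P ≠ 0 := by
    by_contra hcon
    push Not at hcon
    exact hP (MvPolynomial.funext fun x => by rw [hcon x, map_zero])
  simp only [P, map_mul, map_prod] at hM
  have hdet := left_ne_zero_of_mul hM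
  have hprod := Finset.prod_ne_zero_iff.mp (right_ne_zero_of_mul hM)
  rw [eval_detPoly] at hdet
  -- the basis with coordinate matrix `M`
  let v : ι → A := fun a => ∑ c, M (a, c) • b c
  have hv : ∀ a c, b.repr (v a) c = M (a, c) := by
    intro a c
    simp only [v]
    rw [b.repr_sum_self]
  have hdetv : IsUnit (b.det v) := by
    rw [Module.Basis.det_apply]
    have h1 : b.toMatrix v = (Matrix.of fun a c => M (a, c)).transpose := by
      ext a c
      rw [Module.Basis.toMatrix_apply, hv, Matrix.transpose_apply, Matrix.of_apply]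
    rw [h1, Matrix.det_transpose]
    exact isUnit_iff_ne_zero.mpr hdet
  obtain ⟨hli, hsp⟩ := (Module.Basis.is_basis_iff_det b).mpr hdetv
  let e : Module.Basis ι κ A := Module.Basis.mk hli hsp.ge
  have he : ∀ a, e a = v a := fun a => Module.Basis.mk_apply _ _ _
  refine ⟨e, fun i j l h0 => ?_⟩
  have h2 := eval_constPoly_basis b e i j l
  rw [h0, zero_mul] at h2
  have h3 : (fun x : ι × ι => b.repr (e x.1) x.2) = M := by
    funext x
    rw [he, hv]
  rw [h3] at h2
  exact hprod (i, j, l) (Finset.mem_univ _) h2


/-- A basis with `e i * e i` having a nonzero coordinate at `l ≠ i`. -/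
lemma exists_sq [Infinite κ] (b : Module.Basis ι κ A) (i l : ι) (hil : i ≠ l) :
    ∃ e : Module.Basis ι κ A, e.repr (e i * e i) l ≠ 0 := by
  classical
  have : Nontrivial A := ⟨⟨b i, 0, b.ne_zero i⟩⟩
  -- a basis with `e i = 1`
  obtain ⟨e, he⟩ := exists_basis_extending (fun _ : Unit => i) (fun _ _ _ => rfl)
    (fun _ => (1 : A)) (LinearIndependent.of_subsingleton () one_ne_zero) b
  have he1 : e i = 1 := he ()
  -- it is enough to find `a` with `a, a * a` independent
  suffices h : ∃ a : A, LinearIndependent κ ![a, a * a] by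
    obtain ⟨a, ha⟩ := h
    obtain ⟨f, hf⟩ := exists_basis_extending ![i, l] (by
      intro x y hxy
      fin_cases x <;> fin_cases y <;> simp_all) _ ha b
    have hf0 : f i = a := hf 0
    have hf1 : f l = a * a := hf 1
    refine ⟨f, ?_⟩
    rw [hf0, ← hf1, f.repr_self]
    simp
  set u := e.repr (e l * e l) i with hu
  set w := e.repr (e l * e l) l with hw
  obtain ⟨s, hs⟩ : ∃ s : κ, s * s + w * s - u ≠ 0 := by
    by_contra hcon
    push Not at hcon
    have h0 := hcon 0
    obtain ⟨s, hs⟩ := Infinite.exists_notMem_finset ({0, -w} : Finset κ)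
    have h1 := hcon s
    simp only [Finset.mem_insert, Finset.mem_singleton, not_or] at hs
    have h2 : s * (s + w) = 0 := by linear_combination h1 - h0
    rcases mul_eq_zero.mp h2 with h | h
    · exact hs.1 h
    · exact hs.2 (eq_neg_of_add_eq_zero_left h)
  refine ⟨e l + s • e i, ?_⟩
  have hsq : (e l + s • e i) * (e l + s • e i) = e l * e l + (2 * s) • e l + (s * s) • e i := by
    rw [he1]
    simp only [Algebra.smul_def, map_mul, map_ofNat, mul_one]
    ring
  rw [LinearIndependent.pair_iff, hsq]
  intro g0 g1 hst
  have hi := congrArg (fun z => e.repr z i) hst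
  have hl := congrArg (fun z => e.repr z l) hst
  simp only [map_add, map_smul, Finsupp.coe_add, Finsupp.coe_smul, Pi.add_apply, Pi.smul_apply,
    smul_eq_mul, map_zero, Finsupp.coe_zero, Pi.zero_apply, e.repr_self, Finsupp.single_apply,
    if_neg hil, if_neg hil.symm, if_true, ← hu, ← hw] at hi hl
  have h2 : g1 * (s * s + w * s - u) = 0 := by
    linear_combination s * hl - hi
  have hg1 : g1 = 0 := by
    rcases mul_eq_zero.mp h2 with h | h
    · exact h
    · exact absurd h hs
  subst hg1
  refine ⟨?_, rfl⟩
  linear_combination hl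

/-- A basis with `e i * e j` having a nonzero coordinate at `l`, for distinct `i, j, l`. -/
lemma exists_mul (b : Module.Basis ι κ A) (i j l : ι) (hij : i ≠ j) (hil : i ≠ l) (hjl : j ≠ l) :
    ∃ e : Module.Basis ι κ A, e.repr (e i * e j) l ≠ 0 := by
  classical
  have : Nontrivial A := ⟨⟨b i, 0, b.ne_zero i⟩⟩
  obtain ⟨e, he⟩ := exists_basis_extending (fun _ : Unit => i) (fun _ _ _ => rfl)
    (fun _ => (1 : A)) (LinearIndependent.of_subsingleton () one_ne_zero) b
  have he1 : e i = 1 := he ()
  suffices h : ∃ a c : A, LinearIndependent κ ![a, c, a * c] by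
    obtain ⟨a, c, ha⟩ := h
    obtain ⟨f, hf⟩ := exists_basis_extending ![i, j, l] (by
      intro x y hxy
      fin_cases x <;> fin_cases y <;> simp_all) _ ha b
    have hf0 : f i = a := hf 0
    have hf1 : f j = c := hf 1
    have hf2 : f l = a * c := hf 2
    refine ⟨f, ?_⟩
    rw [hf0, hf1, ← hf2, f.repr_self]
    simp
  set u := e.repr (e j * e l) i with hu
  set w := e.repr (e j * e l) j with hw
  set z := e.repr (e j * e l) l with hz
  obtain ⟨r, s, hrs⟩ : ∃ r s : κ, u - s * w - r * z - r * s ≠ 0 := by
    by_contra hcon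
    push Not at hcon
    have h0 := hcon 0 0
    have h1 := hcon 0 1
    have h2 := hcon 1 0
    have h3 := hcon 1 1
    have : (1 : κ) = 0 := by linear_combination h1 + h2 - h3 - h0
    exact one_ne_zero this
  refine ⟨e j + s • e i, e l + r • e i, ?_⟩
  have hmul : (e j + s • e i) * (e l + r • e i) =
      e j * e l + r • e j + s • e l + (r * s) • e i := by
    rw [he1]
    simp only [Algebra.smul_def, map_mul, mul_one]
    ring
  rw [Fintype.linearIndependent_iff, hmul]
  intro g hg
  rw [Fin.sum_univ_three] at hg
  change g 0 • (e j + s • e i) + g 1 • (e l + r • e i) +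
    g 2 • (e j * e l + r • e j + s • e l + (r * s) • e i) = 0 at hg
  have hi := congrArg (fun z => e.repr z i) hg
  have hj := congrArg (fun z => e.repr z j) hg
  have hl := congrArg (fun z => e.repr z l) hg
  simp only [map_add, map_smul, Finsupp.coe_add, Finsupp.coe_smul, Pi.add_apply, Pi.smul_apply,
    smul_eq_mul, map_zero, Finsupp.coe_zero, Pi.zero_apply, e.repr_self, Finsupp.single_apply,
    if_neg hil, if_neg hil.symm, if_neg hij, if_neg hij.symm, if_neg hjl, if_neg hjl.symm,
    if_true, ← hu, ← hw, ← hz] at hi hj hl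
  have h2 : g 2 * (u - s * w - r * z - r * s) = 0 := by
    linear_combination hi - s * hj - r * hl
  have hg2 : g 2 = 0 := by
    rcases mul_eq_zero.mp h2 with h | h
    · exact h
    · exact absurd h hrs
  rw [hg2] at hj hl
  have hg0 : g 0 = 0 := by linear_combination hj
  have hg1 : g 1 = 0 := by linear_combination hl
  intro x
  fin_cases x
  · exact hg0
  · exact hg1
  · exact hg2

/-- A basis with the structure constant `(i,j,l)` nonzero. -/
lemma exists_const [Infinite κ] (b : Module.Basis ι κ A) (i j l : ι) :
    ∃ e : Module.Basis ι κ A, e.repr (e i * e j) l ≠ 0 := by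
  classical
  have : Nontrivial A := ⟨⟨b i, 0, b.ne_zero i⟩⟩
  by_cases hjl : j = l
  · subst hjl
    obtain ⟨e, he⟩ := exists_basis_extending (fun _ : Unit => i) (fun _ _ _ => rfl)
      (fun _ => (1 : A)) (LinearIndependent.of_subsingleton () one_ne_zero) b
    have he1 : e i = 1 := he ()
    refine ⟨e, ?_⟩
    rw [he1, one_mul, e.repr_self]
    simp
  by_cases hil : i = l
  · subst hil
    obtain ⟨e, he⟩ := exists_basis_extending (fun _ : Unit => j) (fun _ _ _ => rfl)
      (fun _ => (1 : A)) (LinearIndependent.of_subsingleton () one_ne_zero) b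
    have he1 : e j = 1 := he ()
    refine ⟨e, ?_⟩
    rw [he1, mul_one, e.repr_self]
    simp
  by_cases hij : i = j
  · subst hij
    exact exists_sq b i l hil
  · exact exists_mul b i j l hij hil hjl

/-- Over an infinite field some basis has all structure constants nonzero. -/
theorem exists_generic_basis [Infinite κ] (b : Module.Basis ι κ A) :
    ∃ e : Module.Basis ι κ A, ∀ i j l, e.repr (e i * e j) l ≠ 0 :=
  exists_common_basis b (exists_const b)

end Generic

section Lift

variable {R : Type*} [CommRing R] [IsLocalRing R] {B : Type*} [CommRing B] [Algebra R B]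
variable {ι : Type*} [Fintype ι] [DecidableEq ι]

open IsLocalRing in
/-- Over a local ring with infinite residue field, a finite free algebra has a basis for which
all structure constants are units. -/
theorem exists_unit_basis [Infinite (ResidueField R)] (b : Module.Basis ι R B) :
    ∃ e : Module.Basis ι R B, ∀ i j l, IsUnit (e.repr (e i * e j) l) := by
  classical
  have : Module.Finite R B := Module.Finite.of_basis b
  have : Module.Free R B := Module.Free.of_basis b
  have : Module.FinitePresentation R B := Module.finitePresentation_of_projective R B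
  obtain ⟨e0, he0⟩ := exists_generic_basis (Algebra.TensorProduct.basis (ResidueField R) b)
  have hsurj : Function.Surjective (TensorProduct.mk R (ResidueField R) B 1) :=
    TensorProduct.mk_surjective R B (ResidueField R) Ideal.Quotient.mk_surjective
  choose v hv using fun i => hsurj (e0 i)
  have hcomp : (TensorProduct.mk R (ResidueField R) B 1 ∘ v) = e0 := funext hv
  obtain ⟨e, he⟩ := Module.exists_basis_of_basis_baseChange v
    (by rw [hcomp]; exact e0.linearIndependent) (by rw [hcomp]; exact e0.span_eq)
    (Module.Flat.rTensor_preserves_injective_linearMap (maximalIdeal R).subtype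
      Subtype.val_injective)
  refine ⟨e, fun i j l => ?_⟩
  have h1 : ∀ i, (1 : ResidueField R) ⊗ₜ[R] e i = e0 i := fun i => by
    rw [he]; exact hv i
  have h2 : e0 i * e0 j = ∑ m, (residue R (e.repr (e i * e j) m)) • e0 m := by
    rw [← h1, ← h1, Algebra.TensorProduct.tmul_mul_tmul, one_mul]
    conv_lhs => rw [← e.sum_repr (e i * e j)]
    rw [TensorProduct.tmul_sum]
    refine Finset.sum_congr rfl fun m _ => ?_
    rw [← h1, TensorProduct.tmul_smul]
    rfl
  have h3 : e0.repr (e0 i * e0 j) l = residue R (e.repr (e i * e j) l) := by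
    rw [h2, e0.repr_sum_self]
  have h4 := he0 i j l
  rw [h3] at h4
  exact (residue_ne_zero_iff_isUnit _).mp h4

end Lift

end Pool.Agent.TH623.GenericBasis
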