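import Mathlib

namespace Pool.Agent.TH623.Split

open scoped TensorProduct

universe u

/-- A finite reduced algebra over an algebraically closed field is formally étale. -/
theorem formallyEtale_of_isReduced (K : Type u) [Field K] [IsAlgClosed K] (E : Type u)
    [CommRing E] [Algebra K E] [Module.Finite K E] [IsReduced E] : Algebra.FormallyEtale K E := by
  classical
  have : IsArtinianRing E := isArtinian_of_tower K inferInstance
  rw [Algebra.FormallyEtale.iff_of_equiv ((IsArtinianRing.equivPi E).restrictScalars K),
    Algebra.FormallyEtale.pi_iff]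
  intro m
  let _ : Field (E ⧸ m.asIdeal) := Ideal.Quotient.field m.asIdeal
  have : Algebra.IsSeparable K (E ⧸ m.asIdeal) := inferInstance
  exact Algebra.FormallyEtale.of_isSeparable K (E ⧸ m.asIdeal)

/-- A finite geometrically reduced algebra over a field is étale. -/
theorem etale_of_isGeometricallyReduced (K : Type u) [Field K] (E : Type u)
    [CommRing E] [Algebra K E] [Module.Finite K E] [Algebra.IsGeometricallyReduced K E] :
    Algebra.Etale K E := by
  have h1 : IsReduced (AlgebraicClosure K ⊗[K] E) := inferInstance
  have h2 : Algebra.FormallyEtale (AlgebraicClosure K) (AlgebraicClosure K ⊗[K] E) :=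
    formallyEtale_of_isReduced _ _
  have h3 : Algebra.FormallyUnramified K E :=
    Algebra.FormallyUnramified.of_formallyUnramified_tensorProduct_of_faithfullyFlat
      (AlgebraicClosure K)
  have h4 : Algebra.FormallyEtale K E := Algebra.FormallyEtale.of_formallyUnramified_of_field K E
  exact ⟨h4, Algebra.FinitePresentation.of_finiteType.mp inferInstance⟩

/-- A finite geometrically reduced algebra is split by a finite separable extension. -/
theorem exists_splitting_field (K : Type u) [Field K] (E : Type u)
    [CommRing E] [Algebra K E] [Module.Finite K E] [Algebra.IsGeometricallyReduced K E] :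
    ∃ (L : Type u) (_ : Field L) (_ : Algebra K L), FiniteDimensional K L ∧
      Algebra.IsSeparable K L ∧ Algebra.IsFiniteSplit L (L ⊗[K] E) := by
  have := etale_of_isGeometricallyReduced K E
  obtain ⟨T, _, _, _, _, _, hT⟩ := Algebra.IsFiniteSplit.exists_tensorProduct_of_etale
    (R := K) (S := E) (n := Module.finrank K E) (by
      rw [Module.rankAtStalk_eq_finrank_of_free])
  have : Nontrivial T := (FaithfulSMul.algebraMap_injective K T).nontrivial
  obtain ⟨m, hm⟩ := Ideal.exists_maximal T
  let _ : Field (T ⧸ m) := Ideal.Quotient.field m
  refine ⟨T ⧸ m, inferInstance, inferInstance, inferInstance, inferInstance, ?_⟩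
  have h1 : Algebra.IsFiniteSplit (T ⧸ m) ((T ⧸ m) ⊗[T] (T ⊗[K] E)) := inferInstance
  exact Algebra.IsFiniteSplit.of_algEquiv
    (Algebra.TensorProduct.cancelBaseChange K T (T ⧸ m) (T ⧸ m) E)

end Pool.Agent.TH623.Split
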